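import Pool.Agent.helper83.GR.Spec

/-! GCN: `galCount` and `gE`. -/

set_option autoImplicit false

namespace Pool.Agent.GR

open Pool.Agent.helper58.DC Pool.Agent.DI

theorem GCN_comap (hB14 : B14_stmt) (G E : Type) [Group G] [Group E] [Finite G] [Finite E]
    (i : G →* E) (hi : Function.Injective i) (C : Finset (Subgroup G)) (hC : C.Nonempty) :
    (nrm (cmap i C)).comap i = nrm C := by
  have h := ((hB14 G E i hi C).2.1) hC
  have h2 := congrArg (Subgroup.comap i) h
  rw [Subgroup.comap_map_eq_self_of_injective hi, Subgroup.comap_inf] at h2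
  rw [h2]
  ext x
  simp only [Subgroup.mem_inf, Subgroup.mem_comap]
  exact ⟨fun hx => ⟨⟨x, rfl⟩, hx⟩, fun hx => hx.2⟩

theorem GCN_act (G E A : Type) [Group G] [Group E] [Group A] (X : Extension G E A) (h : G) :
    X.act (X.inc h) = MulAut.conj h := by
  apply MulEquiv.ext
  intro g
  apply X.inc_injective
  rw [X.act_spec, MulAut.conj_apply, map_mul, map_mul, map_inv]

theorem GCN_fun_mul {G : Type} [Group G] (α β : MulAut G) (φ : G → ℂ) :
    funMap (α * β) φ = funMap α (funMap β φ) := by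
  funext g
  simp [funMap, mul_inv_rev]

theorem GCN (hB14 : B14_stmt) (hB2 : B2_stmt) : GCN_stmt := by
  classical
  intro G E A _ _ _ _ _ X M χ a σ C hchain hne
  have hcom := GCN_comap hB14 G E X.inc X.inc_injective C hne
  have hmem : ∀ e : E, e ∈ nrm (cmap X.inc C) ↔ chainMap (X.act e) C = C := fun e =>
    (hB14 G E X.inc X.inc_injective C).2.2 (X.act e) e (X.act_spec e) hchain
  unfold gE
  rw [hcom]
  by_cases hS : ∃ e₀ : E, e₀ ∈ nrm (cmap X.inc C) ∧ X.proj e₀ = a
  · obtain ⟨e₀, he₀, he₀a⟩ := hS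
    -- the elements over a
    have hdec : ∀ e : E, e ∈ nrm (cmap X.inc C) → X.proj e = a →
        ∃ h ∈ nrm C, e = e₀ * X.inc h := by
      intro e he hea
      have h1 : X.proj (e₀⁻¹ * e) = 1 := by
        rw [map_mul, map_inv, he₀a, hea, inv_mul_cancel]
      obtain ⟨h, hh⟩ := (X.exact _).1 h1
      refine ⟨h, ?_, by rw [hh]; group⟩
      rw [← hcom, Subgroup.mem_comap, hh]
      exact Subgroup.mul_mem _ (Subgroup.inv_mem _ he₀) he
    -- independence of e
    have hind : ∀ ψ ∈ IrrOn (nrm C), ∀ e : E, e ∈ nrm (cmap X.inc C) → X.proj e = a →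
        funMap (X.act e) (galMap σ ψ) = funMap (X.act e₀) (galMap σ ψ) := by
      intro ψ hψ e he hea
      obtain ⟨h, hh, rfl⟩ := hdec e he hea
      rw [map_mul, GCN_act, GCN_fun_mul]
      congr 1
      funext g
      unfold funMap galMap
      congr 1
      have h2 := ((hB2 G (nrm C)).2 ψ hψ).2.1 g h⁻¹ (Subgroup.inv_mem _ hh)
      rw [inv_inv] at h2
      rw [← MulAut.conj_inv_apply] at h2
      exact h2
    have hcnt : ∀ e ∈ {e : E | e ∈ nrm (cmap X.inc C) ∧ X.proj e = a},
        (cnt M χ (nrm C) (X.act e) σ : ℤ) = (galCount X M χ a σ C : ℤ) := by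
      rintro e ⟨he, hea⟩
      unfold cnt galCount
      congr 1
      apply Nat.card_congr
      refine Equiv.subtypeEquivRight fun ψ => ?_
      constructor
      · rintro ⟨⟨h1, h2⟩, h3⟩
        exact ⟨h1, h2, e, hea, (hmem e).1 he, h3⟩
      · rintro ⟨h1, h2, e', he'a, he', h3⟩
        refine ⟨⟨h1, h2⟩, ?_⟩
        rw [hind ψ h1 e he hea, ← hind ψ h1 e' ((hmem e').2 he') he'a]
        exact h3
    rw [finsum_mem_congr rfl hcnt]
    have hset : {e : E | e ∈ nrm (cmap X.inc C) ∧ X.proj e = a} =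
        (fun h : G => e₀ * X.inc h) '' (nrm C : Set G) := by
      ext e
      constructor
      · rintro ⟨he, hea⟩
        obtain ⟨h, hh, rfl⟩ := hdec e he hea
        exact ⟨h, hh, rfl⟩
      · rintro ⟨h, hh, rfl⟩
        refine ⟨?_, ?_⟩
        · apply Subgroup.mul_mem _ he₀
          have hh' : h ∈ nrm C := hh
          rw [← hcom, Subgroup.mem_comap] at hh'
          exact hh'
        · rw [map_mul, he₀a, (X.exact (X.inc h)).2 ⟨h, rfl⟩, mul_one]
    have hinj : Function.Injective (fun h : G => e₀ * X.inc h) := by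
      intro h h' heq
      exact X.inc_injective (mul_left_cancel heq)
    rw [hset, finsum_mem_image hinj.injOn,
      finsum_mem_eq_finite_toFinset_sum _ (Set.toFinite _), Finset.sum_const, nsmul_eq_mul,
      ← Set.ncard_eq_toFinset_card]
    rfl
  · have h1 : {e : E | e ∈ nrm (cmap X.inc C) ∧ X.proj e = a} = ∅ := by
      apply Set.eq_empty_of_forall_notMem
      rintro e ⟨he, hea⟩
      exact hS ⟨e, he, hea⟩
    rw [h1, finsum_mem_empty]
    have h2 : galCount X M χ a σ C = 0 := by
      unfold galCount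
      have : IsEmpty {ψ : G → ℂ // ψ ∈ IrrOn (nrm C) ∧ Induces M ψ χ ∧ FixedBy X a σ C ψ} := by
        constructor
        rintro ⟨ψ, -, -, e, hea, hec, -⟩
        exact hS ⟨e, (hmem e).2 hec, hea⟩
      exact Nat.card_of_isEmpty
    rw [h2]
    simp

end Pool.Agent.GR
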